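import Pool.Agent.TH227.CM.Coding
import Pool.Agent.TH227.SB.Conn
import Pool.Agent.TH227.TM.Meas

/-!
MP_fcca75_lc, Q2: diffeomorphism of connected smooth `n`-manifolds is Borel reducible to
diffeomorphism of connected smooth `(n+1)`-manifolds, for every `n ≥ 1`.
-/

set_option autoImplicit false

open Set Filter Topology
open scoped ContDiff Manifold

namespace Pool.Agent.Results.MP_fcca75_lc.DiffMonotone

open Pool.Agent.TH227.CM

/-- The space of codes of connected smooth `n`-manifolds: a code is a sequence of open subsets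
`V i i` of `ℝⁿ` together with smooth gluing maps `φ i j` from the open subset `V i j` of `V i i` onto
the open subset `V j i` of `V j j`, satisfying the cocycle conditions and the Hausdorff condition;
`c.Pts` is the manifold glued from these data, and it has to be connected. -/
def ConnCode (n : ℕ) : Type :=
  {c : Code (EuclideanSpace ℝ (Fin n)) // ConnectedSpace c.Pts}

/-- The Borel structure of the space of codes: it is generated by the conditions `S ⊆ V i j`, for `S`
compact, and `φ i j x ∈ B`, for `x` a point and `B` a Borel set. -/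
noncomputable instance connBorel (n : ℕ) : MeasurableSpace (ConnCode n) :=
  MeasurableSpace.comap Subtype.val (measC : MeasurableSpace (Code (EuclideanSpace ℝ (Fin n))))

/-- The coded manifold. -/
abbrev Coded (n : ℕ) (c : ConnCode n) : Type := Code.Pts c.1

/-- The coded manifolds are diffeomorphic. -/
def Diffeomorphic (n : ℕ) (c c' : ConnCode n) : Prop :=
  Nonempty (Diffeomorph 𝓘(ℝ, EuclideanSpace ℝ (Fin n)) 𝓘(ℝ, EuclideanSpace ℝ (Fin n))
    (Coded n c) (Coded n c') ∞)

/-- The coded space is a connected Hausdorff second countable smooth `n`-manifold. -/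
def GluesToManifold (n : ℕ) (c : ConnCode n) : Prop :=
  T2Space (Coded n c) ∧ SecondCountableTopology (Coded n c) ∧ ConnectedSpace (Coded n c) ∧
    IsManifold 𝓘(ℝ, EuclideanSpace ℝ (Fin n)) ∞ (Coded n c)

/-- The smooth manifold `N` is diffeomorphic to a coded one. -/
def HasCode (n : ℕ) (N : Type) [TopologicalSpace N] [ChartedSpace (EuclideanSpace ℝ (Fin n)) N] :
    Prop :=
  ∃ c : ConnCode n, Nonempty (Diffeomorph 𝓘(ℝ, EuclideanSpace ℝ (Fin n))
    𝓘(ℝ, EuclideanSpace ℝ (Fin n)) N (Coded n c) ∞)

/-- Borel reducibility of the relation `R` on `X` to the relation `S` on `Y`. -/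
def BorelReducible {X Y : Type} [MeasurableSpace X] [MeasurableSpace Y] (R : X → X → Prop)
    (S : Y → Y → Prop) : Prop :=
  ∃ F : X → Y, Measurable F ∧ ∀ x x', R x x' ↔ S (F x) (F x')

/-- For every `n`: the space of codes of connected smooth `n`-manifolds is a standard Borel space,
every code glues to a connected Hausdorff second countable smooth `n`-manifold, and every connected
Hausdorff second countable smooth `n`-manifold is diffeomorphic to a coded one. Diffeomorphism of
connected smooth `n`-manifolds is Borel reducible to diffeomorphism of connected smooth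
`(n+1)`-manifolds, for every `n ≥ 1`. In fact diffeomorphism of connected smooth `n`-manifolds is
Borel reducible to diffeomorphism of connected smooth `m`-manifolds, for all `n` and all `m ≥ 2`. -/
theorem result :
    (∀ n : ℕ, StandardBorelSpace (ConnCode n)) ∧
    (∀ (n : ℕ) (c : ConnCode n), GluesToManifold n c) ∧
    (∀ (n : ℕ) (N : Type) [TopologicalSpace N] [ChartedSpace (EuclideanSpace ℝ (Fin n)) N]
      [IsManifold 𝓘(ℝ, EuclideanSpace ℝ (Fin n)) ∞ N] [T2Space N] [SecondCountableTopology N]
      [ConnectedSpace N], HasCode n N) ∧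
    (∀ n : ℕ, 1 ≤ n → BorelReducible (Diffeomorphic n) (Diffeomorphic (n + 1))) ∧
    (∀ n m : ℕ, 2 ≤ m → BorelReducible (Diffeomorphic n) (Diffeomorphic m)) := by
  have key : ∀ n m : ℕ, 2 ≤ m → BorelReducible (Diffeomorphic n) (Diffeomorphic m) := by
    intro n m hm
    obtain ⟨F, hF, hc, hi⟩ := Pool.Agent.TH227.TM.reduction
      (E₁ := EuclideanSpace ℝ (Fin n)) (E := EuclideanSpace ℝ (Fin m))
      { e0 := EuclideanSpace.single ⟨0, by omega⟩ 1
        e1 := EuclideanSpace.single ⟨1, by omega⟩ 1
        h0 := by simp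
        h1 := by simp
        h01 := by simp [EuclideanSpace.inner_single_left] }
    refine ⟨fun c => ⟨F c.1, hc c.1⟩, ?_, fun c c' => hi c.1 c'.1⟩
    rintro A ⟨B, hB, rfl⟩
    exact ⟨F ⁻¹' B, hF hB, rfl⟩
  refine ⟨fun n => Pool.Agent.TH227.SB.sb_conn,
    fun n c => ⟨inferInstance, inferInstance, c.2, inferInstance⟩, ?_,
    fun n hn => key n (n + 1) (by omega), key⟩
  intro n N _ _ _ _ _ _
  obtain ⟨c, ⟨f⟩⟩ := exists_code (E := EuclideanSpace ℝ (Fin n)) (N := N)
  have hc : ConnectedSpace c.Pts :=
    f.toEquiv.surjective.connectedSpace f.contMDiff_toFun.continuous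
  exact ⟨⟨c, hc⟩, ⟨f⟩⟩

end Pool.Agent.Results.MP_fcca75_lc.DiffMonotone
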